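import Pool.Agent.QSN.StmtsD

/-!
# Row SLZ of squad QSN (MP_dc0713_gt): the classification of the algebraic part, nine cases
-/

set_option autoImplicit false

namespace Pool.Agent.QSN.H89

open Matrix Pool.Agent.QSN Pool.Agent.QSX

section

variable {k k' : ℕ} {A A' : Type} [DivisionRing A] [Algebra ℝ A] [DivisionRing A'] [Algebra ℝ A']
  (b : Module.Basis (Fin k) ℝ A) (b' : Module.Basis (Fin k') ℝ A')

theorem low (slx : SlxStmt) (slb : SlbStmt) (slr : SlrStmt) (hk : 0 < k) (hk' : 0 < k')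
    {N m : ℕ} (hN : 0 < N) (h : WkEmb (datD (N + 2) (reg A b)) (datD m (reg A' b'))) (r : ℕ)
    (h1 : 1 ≤ r) (h4 : r ≤ 4) (hlt : (r - 1) * k' < k) :
    ∃ p q : ℕ, r ≤ p * q ∧ r * N + p + q ≤ m := by
  obtain ⟨hd, hf⟩ := slr k A b
  obtain ⟨-, hf'⟩ := slr k' A' b'
  have i1 : FiniteDimensional ℝ (reg A b) := Module.finite_of_finrank_pos (by rw [hf]; exact hk)
  have i2 : FiniteDimensional ℝ (reg A' b') :=
    Module.finite_of_finrank_pos (by rw [hf']; exact hk')
  exact slb N m (reg A b) (reg A' b') hN hd (slx k k' hk hk' _ _ (N + 2) m h) r h1 h4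
    (by rw [hf, hf']; exact hlt)

theorem up (sli : SliStmt) (slp : SlpStmt) (hk : 0 < k) (hk' : 0 < k') {r p q N m : ℕ}
    (hp : 0 < p) (hq : 0 < q) (ρ : A →ₐ[ℝ] Matrix (Fin r) (Fin r) A') (α : Fin p → Fin r)
    (β : Fin q → Fin r) (hα : Function.Injective α) (hβ : Function.Injective β)
    (h : ∀ x : A, (∀ i j, ρ x (α i) (β j) = 0) → x = 0) (hm : p + N * r + q ≤ m) :
    AlgEmb (datD (N + 2) (reg A b)) (datD m (reg A' b')) := by
  obtain ⟨ρ', hρ'⟩ := slp k k' r p q A A' b b' ρ α β h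
  exact sli k k' r p q N m hk hk' hp hq _ _ ρ' α β hα hβ hρ' hm

/-- the case of an algebra homomorphism `A → A'` -/
theorem homCase (slx : SlxStmt) (slb : SlbStmt) (sli : SliStmt) (slr : SlrStmt) (slp : SlpStmt)
    (slq : SlqStmt) (hk : 0 < k) (hk' : 0 < k') (f : A →ₐ[ℝ] A') (n m : ℕ) (hn : 3 ≤ n) :
    (WkEmb (datD n (reg A b)) (datD m (reg A' b')) → n ≤ m) ∧
      (n ≤ m → AlgEmb (datD n (reg A b)) (datD m (reg A' b'))) := by
  obtain ⟨N, rfl⟩ : ∃ N, n = N + 2 := ⟨n - 2, by omega⟩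
  refine ⟨fun h => ?_, fun h => ?_⟩
  · obtain ⟨p, q, h1, h2⟩ := low b b' slx slb slr hk hk' (by omega) h 1 le_rfl (by norm_num)
      (by simpa using hk)
    have hp : 0 < p := Nat.pos_of_ne_zero (by rintro rfl; omega)
    have hq : 0 < q := Nat.pos_of_ne_zero (by rintro rfl; omega)
    omega
  · obtain ⟨ρ, α, β, hα, hβ, hh⟩ := slq.1 A A' f
    exact up b b' sli slp hk hk' one_pos one_pos ρ α β hα hβ hh (by omega)

/-- the case of a representation of dimension two -/
theorem twoCase (slx : SlxStmt) (slb : SlbStmt) (sli : SliStmt) (slr : SlrStmt) (slp : SlpStmt)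
    (hk' : 0 < k') (hkk : k' < k)
    (hq : ∃ (ρ : A →ₐ[ℝ] Matrix (Fin 2) (Fin 2) A') (α : Fin 2 → Fin 2) (β : Fin 1 → Fin 2),
      Function.Injective α ∧ Function.Injective β ∧ ∀ x, (∀ i j, ρ x (α i) (β j) = 0) → x = 0)
    (n m : ℕ) (hn : 3 ≤ n) :
    (WkEmb (datD n (reg A b)) (datD m (reg A' b')) → 2 * n - 1 ≤ m) ∧
      (2 * n - 1 ≤ m → AlgEmb (datD n (reg A b)) (datD m (reg A' b'))) := by
  have hk : 0 < k := hk'.trans hkk
  obtain ⟨N, rfl⟩ : ∃ N, n = N + 2 := ⟨n - 2, by omega⟩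
  refine ⟨fun h => ?_, fun h => ?_⟩
  · obtain ⟨p, q, h1, h2⟩ := low b b' slx slb slr hk hk' (by omega) h 2 (by norm_num)
      (by norm_num) (by simpa using hkk)
    have hp : 0 < p := Nat.pos_of_ne_zero (by rintro rfl; omega)
    have hq : 0 < q := Nat.pos_of_ne_zero (by rintro rfl; omega)
    have hpq : 3 ≤ p + q := by
      by_contra hc
      have e1 : p = 1 := by omega
      have e2 : q = 1 := by omega
      subst e1; subst e2
      omega
    omega
  · obtain ⟨ρ, α, β, hα, hβ, hh⟩ := hq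
    exact up b b' sli slp hk hk' (by norm_num) one_pos ρ α β hα hβ hh (by omega)

/-- the case of a representation of dimension four -/
theorem fourCase (slx : SlxStmt) (slb : SlbStmt) (sli : SliStmt) (slr : SlrStmt) (slp : SlpStmt)
    (hk' : 0 < k') (hkk : 3 * k' < k)
    (hq : ∃ (ρ : A →ₐ[ℝ] Matrix (Fin 4) (Fin 4) A') (α β : Fin 2 → Fin 4),
      Function.Injective α ∧ Function.Injective β ∧ ∀ x, (∀ i j, ρ x (α i) (β j) = 0) → x = 0)
    (n m : ℕ) (hn : 3 ≤ n) :
    (WkEmb (datD n (reg A b)) (datD m (reg A' b')) → 4 * n - 4 ≤ m) ∧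
      (4 * n - 4 ≤ m → AlgEmb (datD n (reg A b)) (datD m (reg A' b'))) := by
  have hk : 0 < k := by omega
  obtain ⟨N, rfl⟩ : ∃ N, n = N + 2 := ⟨n - 2, by omega⟩
  refine ⟨fun h => ?_, fun h => ?_⟩
  · obtain ⟨p, q, h1, h2⟩ := low b b' slx slb slr hk hk' (by omega) h 4 (by norm_num)
      (by norm_num) (by simpa using hkk)
    have hpq : 4 ≤ p + q := by
      by_contra hc
      have e1 : p ≤ 3 := by omega
      interval_cases p
      · omega
      · omega
      · have : q ≤ 1 := by omega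
        omega
      · have : q = 0 := by omega
        omega
    omega
  · obtain ⟨ρ, α, β, hα, hβ, hh⟩ := hq
    exact up b b' sli slp hk hk' (by norm_num) (by norm_num) ρ α β hα hβ hh (by omega)

end

theorem s0 (n : ℕ) : SLd 0 n = datD n (reg ℝ (Module.Basis.singleton (Fin 1) ℝ)) := rfl

theorem s1 (n : ℕ) : SLd 1 n = datD n (reg ℂ Complex.basisOneI) := rfl

theorem s2 (n : ℕ) : SLd 2 n =
    datD n (reg (Quaternion ℝ) (QuaternionAlgebra.basisOneIJK (-1) 0 (-1))) := rfl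

theorem bndLe {i j : Fin 3} (h : i ≤ j) (n : ℕ) : bnd i j n = n := by
  unfold bnd
  rw [if_pos h]

theorem bnd20 (n : ℕ) : bnd 2 0 n = 4 * n - 4 := by
  unfold bnd
  rw [if_neg (by decide), if_pos (by decide)]

theorem bnd10 (n : ℕ) : bnd 1 0 n = 2 * n - 1 := by
  unfold bnd
  rw [if_neg (by decide), if_neg (by decide)]

theorem bnd21 (n : ℕ) : bnd 2 1 n = 2 * n - 1 := by
  unfold bnd
  rw [if_neg (by decide), if_neg (by decide)]

/-- the basis of the quaternions -/
noncomputable def bH : Module.Basis (Fin 4) ℝ (Quaternion ℝ) :=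
  QuaternionAlgebra.basisOneIJK (-1) 0 (-1)

theorem s2' (n : ℕ) : SLd 2 n = datD n (reg (Quaternion ℝ) bH) := rfl

/-- **SLZ** -/
theorem slz (slx : SlxStmt) (slb : SlbStmt) (sli : SliStmt) (slr : SlrStmt) (slp : SlpStmt)
    (slq : SlqStmt) : SlzStmt := by
  intro i j n m hn
  match i, j with
  | 0, 0 =>
    rw [bndLe (by decide), s0, s0]
    exact homCase _ _ slx slb sli slr slp slq (by norm_num) (by norm_num) (AlgHom.id ℝ ℝ) n m hn
  | 0, 1 =>
    rw [bndLe (by decide), s0, s1]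
    exact homCase _ _ slx slb sli slr slp slq (by norm_num) (by norm_num) (Algebra.ofId ℝ ℂ) n m hn
  | 0, 2 =>
    rw [bndLe (by decide), s0, s2']
    exact homCase _ bH slx slb sli slr slp slq (by norm_num) (by norm_num)
      (Algebra.ofId ℝ (Quaternion ℝ)) n m hn
  | 1, 0 =>
    rw [bnd10, s1, s0]
    exact twoCase _ _ slx slb sli slr slp (by norm_num) (by norm_num) slq.2.1 n m hn
  | 1, 1 =>
    rw [bndLe (by decide), s1, s1]
    exact homCase _ _ slx slb sli slr slp slq (by norm_num) (by norm_num) (AlgHom.id ℝ ℂ) n m hn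
  | 1, 2 =>
    rw [bndLe (by decide), s1, s2']
    exact homCase _ bH slx slb sli slr slp slq (by norm_num) (by norm_num) Quaternion.ofComplex
      n m hn
  | 2, 0 =>
    rw [bnd20, s2', s0]
    exact fourCase bH _ slx slb sli slr slp (by norm_num) (by norm_num) slq.2.2.2 n m hn
  | 2, 1 =>
    rw [bnd21, s2', s1]
    exact twoCase bH _ slx slb sli slr slp (by norm_num) (by norm_num) slq.2.2.1 n m hn
  | 2, 2 =>
    rw [bndLe (by decide), s2', s2']
    exact homCase bH bH slx slb sli slr slp slq (by norm_num) (by norm_num)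
      (AlgHom.id ℝ (Quaternion ℝ)) n m hn

end Pool.Agent.QSN.H89
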