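import Pool.Agent.QSN.StmtsA

/-!
# Row NSM of squad QSN (MP_dc0713_gt)

The steps of a root element of a root which occurs in a commutator formula do not depend on the
point.
-/

set_option autoImplicit false

namespace Pool.Agent.QSN.H89

open Pool.Agent.QSN

variable {ι κ G H : Type} [Group G] [Group H]

/-- the elements of `Γ` under which the steps of `u t` are invariant -/
def inv0 (D : RGM ι κ G H) (t : ι) : Subgroup G where
  carrier := {g | g ∈ D.Gam ∧ ∀ n ∈ D.Gam, ∀ x : ℚ, D.V t (n * g) x = D.V t n x}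
  one_mem' := ⟨D.Gam.one_mem, fun n _ x => by rw [mul_one]⟩
  mul_mem' := by
    rintro a b ⟨ha, ha'⟩ ⟨hb, hb'⟩
    refine ⟨D.Gam.mul_mem ha hb, fun n hn x => ?_⟩
    rw [← mul_assoc, hb' _ (D.Gam.mul_mem hn ha) x, ha' n hn x]
  inv_mem' := by
    rintro a ⟨ha, ha'⟩
    refine ⟨D.Gam.inv_mem ha, fun n hn x => ?_⟩
    have h := ha' (n * a⁻¹) (D.Gam.mul_mem hn (D.Gam.inv_mem ha)) x
    rw [inv_mul_cancel_right] at h
    exact h.symm

theorem u_mem (D : RGM ι κ G H) (l : ι) (x : ℚ) : D.u l x ∈ D.Gam :=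
  Subgroup.subset_closure ⟨l, x, rfl⟩

/-- **NSM** -/
theorem nsm : NsmStmt := by
  intro ι κ G H _ _ D hI hG l l' hll t ht t' ht' n hn x
  have hK : Subgroup.closure {g | ∃ (m : ι) (y : ℚ), D.cl m ≠ D.cl t' ∧ g = D.u m y} ≤
      inv0 D t' := by
    rw [Subgroup.closure_le]
    rintro g ⟨m, y, hm, rfl⟩
    exact ⟨u_mem D m y, fun n hn x => hI t' m (Ne.symm hm) n hn x y⟩
  have hGam : D.Gam ≤ inv0 D t' := by
    unfold RGM.Gam
    rw [Subgroup.closure_le]
    rintro g ⟨m, y, rfl⟩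
    by_cases hm : D.cl m = D.cl t'
    · have h1 := hG l l' hll t ht m (hm.trans ht') y
      rw [hm] at h1
      exact hK h1
    · exact ⟨u_mem D m y, fun n hn x => hI t' m (Ne.symm hm) n hn x y⟩
  have h := (hGam hn).2 1 D.Gam.one_mem x
  rwa [one_mul] at h

end Pool.Agent.QSN.H89
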