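import Pool.Agent.QSN.StmtsB2

/-!
# Row NVK of squad QSN (MP_dc0713_gt): normalisation of a vector over the residue field
-/

set_option autoImplicit false

namespace Pool.Agent.QSN.H89

open Pool.Agent.QSN Pool.Agent.QSX

/-- a representative of an element of the residue field, zero for zero -/
theorem rep (S : Scale) (x : S.FF) : ∃ z : S.OO, Ideal.Quotient.mk S.mm z = x ∧
    (x = 0 → z = 0) := by
  by_cases h : x = 0
  · exact ⟨0, by rw [map_zero, h], fun _ => rfl⟩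
  · obtain ⟨z, hz⟩ := Ideal.Quotient.mk_surjective x
    exact ⟨z, hz, fun h' => absurd h' h⟩

theorem red_md (S : Scale) (z : ℕ → ℝ) (h : S.Md z) :
    S.red z = Ideal.Quotient.mk S.mm ⟨z, h⟩ := by
  unfold Scale.red
  rw [dif_pos h]

/-- **NVK** -/
theorem nvk : NvkStmt := by
  intro S D v hv
  choose z hz hz0 using fun k => rep S (v k)
  obtain ⟨k0, hk0⟩ : ∃ k, v k ≠ 0 := by
    by_contra h
    push Not at h
    exact hv (funext h)
  have hne : Nonempty (Fin D) := ⟨k0⟩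
  choose km hkm using fun s : ℕ => Finite.exists_max fun k : Fin D => |(z k : ℕ → ℝ) s|
  have hns : ¬ S.Sm (fun s => |(z (km s) : ℕ → ℝ) s|) := by
    rintro ⟨c, hc, h⟩
    apply hk0
    rw [← hz k0, Ideal.Quotient.eq_zero_iff_mem]
    show S.Sm (z k0 : ℕ → ℝ)
    refine ⟨c, hc, ?_⟩
    filter_upwards [h] with s hs
    rw [abs_abs] at hs
    exact (hkm s k0).trans hs
  refine ⟨fun s k => (|(z (km s) : ℕ → ℝ) s|)⁻¹ * (z k : ℕ → ℝ) s, ?_, ?_, ?_, ?_⟩
  · intro s k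
    rw [abs_mul, abs_inv, abs_abs, inv_mul_eq_div]
    exact div_le_one_of_le₀ (hkm s k) (abs_nonneg _)
  · filter_upwards [S.ne_zero_ev hns] with s hs
    refine ⟨km s, ?_⟩
    rw [abs_mul, abs_inv, abs_abs]
    exact inv_mul_cancel₀ hs
  · intro k hk s
    have h1 : (z k : ℕ → ℝ) s = 0 := by
      rw [hz0 k hk]
      rfl
    show (|(z (km s) : ℕ → ℝ) s|)⁻¹ * (z k : ℕ → ℝ) s = 0
    rw [h1, mul_zero]
  · intro τ hτ hsum
    have h1 : S.Sm (fun s => ∑ k, (z k : ℕ → ℝ) s * τ k s) := by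
      have h2 : (∑ k, z k * (⟨τ k, hτ k⟩ : S.OO)) ∈ S.mm := by
        rw [← Ideal.Quotient.eq_zero_iff_mem, map_sum, ← hsum]
        refine Finset.sum_congr rfl fun k _ => ?_
        rw [map_mul, hz, red_md S _ (hτ k)]
      have h3 : S.Sm ((∑ k, z k * (⟨τ k, hτ k⟩ : S.OO) : S.OO) : ℕ → ℝ) := h2
      have h4 : ((∑ k, z k * (⟨τ k, hτ k⟩ : S.OO) : S.OO) : ℕ → ℝ) =
          fun s => ∑ k, (z k : ℕ → ℝ) s * τ k s := by
        funext s
        rw [AddSubmonoidClass.coe_finsetSum, Finset.sum_apply]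
        rfl
      rwa [h4] at h3
    have h5 := Scale.Sm.mul_md (S.inv_md hns) h1
    have h6 : ((fun s => (|(z (km s) : ℕ → ℝ) s|)⁻¹) * fun s => ∑ k, (z k : ℕ → ℝ) s * τ k s) =
        fun s => ∑ k, (|(z (km s) : ℕ → ℝ) s|)⁻¹ * (z k : ℕ → ℝ) s * τ k s := by
      funext s
      rw [Pi.mul_apply, Finset.mul_sum]
      exact Finset.sum_congr rfl fun k _ => by ring
    rwa [h6] at h5

end Pool.Agent.QSN.H89
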