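import Pool.Agent.QSN.StmtsE

/-!
# Row DSM of squad QSN (MP_dc0713_gt): ranks and dimensions for `SL_n (𝔻)`
-/

set_option autoImplicit false

namespace Pool.Agent.QSN.H89

open Matrix Pool.Agent.QSN Pool.Agent.QSX

/-- **DSM** -/
theorem dsm : DsmStmt := by
  intro k n 𝔻 𝔻' hk hn
  refine ⟨rfl, fun hlt => ?_⟩
  show Module.finrank ℝ (nD n 𝔻) < Module.finrank ℝ (nD n 𝔻')
  apply Submodule.finrank_lt_finrank_of_lt
  rw [SetLike.lt_iff_le_and_exists]
  constructor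
  · rintro _ ⟨x, hx, rfl⟩
    exact ⟨x, ⟨fun i j => hlt.le (hx.1 i j), hx.2⟩, rfl⟩
  · obtain ⟨a, ha', ha⟩ := SetLike.exists_of_lt hlt
    let i0 : Fin n := ⟨0, by omega⟩
    let i1 : Fin n := ⟨1, by omega⟩
    have hy : ∀ i j, (Matrix.single i0 i1 a : Matrix (Fin n) (Fin n) (Matrix (Fin k) (Fin k) ℝ)) i j
        = if i = i0 ∧ j = i1 then a else 0 := by
      intro i j
      by_cases h : i0 = i ∧ i1 = j
      · obtain ⟨rfl, rfl⟩ := h
        rw [Matrix.single_apply_same, if_pos ⟨rfl, rfl⟩]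
      · rw [Matrix.single_apply_of_ne _ _ _ _ _ h, if_neg (fun h' => h ⟨h'.1.symm, h'.2.symm⟩)]
    refine ⟨blk k n (Matrix.single i0 i1 a), ⟨_, ⟨fun i j => ?_, fun i j hij => ?_⟩, rfl⟩, ?_⟩
    · rw [hy]
      split_ifs
      · exact ha'
      · exact 𝔻'.zero_mem
    · rw [hy, if_neg]
      rintro ⟨rfl, rfl⟩
      have : (1 : ℕ) ≤ 0 := hij
      omega
    · rintro ⟨x, hx, h⟩
      have h1 := (blk k n).injective h
      apply ha
      have h2 := hx.1 i0 i1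
      rwa [← h1, hy, if_pos ⟨rfl, rfl⟩] at h2

end Pool.Agent.QSN.H89
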